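import Mathlib

open Set

namespace Pool.Agent.Results.MP_d888c7_an.NoMoment

/-- `I` is the Riemann-Stieltjes integral of `f` against `b` over `[0,1]`. -/
def IsRS (f b : ℝ → ℝ) (I : ℝ) : Prop :=
  ∀ ε > 0, ∃ δ > 0, ∀ (N : ℕ) (t ξ : ℕ → ℝ), t 0 = 0 → t N = 1 →
    (∀ i < N, t i ≤ ξ i ∧ ξ i ≤ t (i + 1) ∧ t (i + 1) - t i < δ) →
      |∑ i ∈ Finset.range N, f (ξ i) * (b (t (i + 1)) - b (t i)) - I| < ε

/-- The class of weights. -/
def InOmega (w : ℝ → ℝ) : Prop :=
  ContinuousOn w (Icc 0 1) ∧ (∀ x ∈ Icc (0 : ℝ) 1, 0 < w x) ∧ w 0 = 1 ∧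
    MeasureTheory.IntegrableOn w (Icc 0 1) ∧
    MeasureTheory.IntegrableOn (fun x => |1 - w x| * x⁻¹) (Icc 0 1)

/-- The sequence of ratios of weighted moments. -/
noncomputable def lam (w₁ w₂ : ℝ → ℝ) (n : ℕ) : ℝ :=
  if n = 0 then 1
  else (∫ x in (0 : ℝ)..1, w₁ x * x ^ (n - 1)) * (∫ x in (0 : ℝ)..1, w₂ x * x ^ (n - 1))⁻¹

theorem IsRS.sub {f g b : ℝ → ℝ} {I J : ℝ} (hf : IsRS f b I) (hg : IsRS g b J) :
    IsRS (fun x => f x - g x) b (I - J) := by
  intro ε hε
  obtain ⟨d1, h1, H1⟩ := hf (ε / 2) (by positivity)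
  obtain ⟨d2, h2, H2⟩ := hg (ε / 2) (by positivity)
  refine ⟨min d1 d2, lt_min h1 h2, fun N t ξ h0 hN h => ?_⟩
  have A := H1 N t ξ h0 hN (fun i hi => ⟨(h i hi).1, (h i hi).2.1,
    (h i hi).2.2.trans_le (min_le_left _ _)⟩)
  have B := H2 N t ξ h0 hN (fun i hi => ⟨(h i hi).1, (h i hi).2.1,
    (h i hi).2.2.trans_le (min_le_right _ _)⟩)
  have : ∑ i ∈ Finset.range N, (f (ξ i) - g (ξ i)) * (b (t (i + 1)) - b (t i)) - (I - J)
      = (∑ i ∈ Finset.range N, f (ξ i) * (b (t (i + 1)) - b (t i)) - I)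
        - (∑ i ∈ Finset.range N, g (ξ i) * (b (t (i + 1)) - b (t i)) - J) := by
    simp only [sub_mul, Finset.sum_sub_distrib]; ring
  rw [this]
  have := abs_sub (∑ i ∈ Finset.range N, f (ξ i) * (b (t (i + 1)) - b (t i)) - I)
    (∑ i ∈ Finset.range N, g (ξ i) * (b (t (i + 1)) - b (t i)) - J)
  linarith

theorem IsRS.bound {f b : ℝ → ℝ} {I : ℝ} (hf : IsRS f b I)
    (hb : BoundedVariationOn b (Icc 0 1)) (h1 : ∀ x ∈ Icc (0 : ℝ) 1, |f x| ≤ 1) :
    |I| ≤ (eVariationOn b (Icc 0 1)).toReal + 1 := by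
  obtain ⟨d, hd, H⟩ := hf 1 one_pos
  obtain ⟨N, hN⟩ := exists_nat_one_div_lt hd
  set t : ℕ → ℝ := fun i => min (i / ((N : ℝ) + 1)) 1 with ht
  have hpos : (0 : ℝ) < N + 1 := by positivity
  have hmono : Monotone t := by
    intro i j hij
    exact min_le_min_right _ (div_le_div_of_nonneg_right (by exact_mod_cast hij) hpos.le)
  have hmem : ∀ i, t i ∈ Icc (0 : ℝ) 1 := fun i =>
    ⟨le_min (by positivity) zero_le_one, min_le_right _ _⟩
  have A := H (N + 1) t t (by simp [ht]) (by simp [ht, hpos.ne']) (fun i hi => by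
    refine ⟨le_rfl, hmono (Nat.le_succ i), ?_⟩
    have hi' : ((i : ℝ) + 1) ≤ N + 1 := by exact_mod_cast hi
    have e1 : t i = i / ((N : ℝ) + 1) := min_eq_left (by rw [div_le_one hpos]; linarith)
    have e2 : t (i + 1) = (i + 1) / ((N : ℝ) + 1) := by
      simp only [ht]; push_cast
      exact min_eq_left (by rw [div_le_one hpos]; linarith)
    rw [e1, e2, ← sub_div]; simpa using hN)
  have B := eVariationOn.sum_le (f := b) (s := Icc 0 1) (n := N + 1) hmono hmem
  have C : ∑ i ∈ Finset.range (N + 1), |b (t (i + 1)) - b (t i)|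
      ≤ (eVariationOn b (Icc 0 1)).toReal := by
    rw [← ENNReal.ofReal_le_iff_le_toReal hb, ENNReal.ofReal_sum_of_nonneg (fun _ _ => abs_nonneg _)]
    refine le_trans (le_of_eq ?_) B
    refine Finset.sum_congr rfl fun i _ => ?_
    rw [edist_dist, Real.dist_eq]
  have D : |∑ i ∈ Finset.range (N + 1), f (t i) * (b (t (i + 1)) - b (t i))|
      ≤ ∑ i ∈ Finset.range (N + 1), |b (t (i + 1)) - b (t i)| := by
    refine (Finset.abs_sum_le_sum_abs _ _).trans (Finset.sum_le_sum fun i _ => ?_)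
    rw [abs_mul]
    exact mul_le_of_le_one_left (abs_nonneg _) (h1 _ (hmem i))
  have := abs_sub_abs_le_abs_sub I
    (∑ i ∈ Finset.range (N + 1), f (t i) * (b (t (i + 1)) - b (t i)))
  rw [abs_sub_comm] at this
  linarith

noncomputable def D (s : ℂ) (k m : ℕ) : ℂ :=
  (m.factorial : ℂ) / ∏ j ∈ Finset.range (m + 1), ((k : ℂ) + j - s)

theorem D_step {s : ℂ} (hs : ∀ n : ℕ, (n : ℂ) - s ≠ 0) (k m : ℕ) :
    D s k (m + 1) * ((k : ℂ) + (m + 1) - s) = (m + 1) * D s k m := by
  have h : ∀ j : ℕ, (k : ℂ) + j - s ≠ 0 := fun j => by simpa using hs (k + j)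
  have h2 : ∏ j ∈ Finset.range (m + 1), ((k : ℂ) + j - s) ≠ 0 :=
    Finset.prod_ne_zero_iff.2 fun j _ => h j
  have h3 := h (m + 1)
  push_cast at h3
  unfold D
  rw [Finset.prod_range_succ _ (m + 1), Nat.factorial_succ]
  push_cast
  field_simp

theorem D_diff {s : ℂ} (hs : ∀ n : ℕ, (n : ℂ) - s ≠ 0) (k m : ℕ) :
    D s k (m + 1) = D s k m - D s (k + 1) m := by
  have h : ∀ j : ℕ, (k : ℂ) + j - s ≠ 0 := fun j => by simpa using hs (k + j)
  have h2 : ∏ j ∈ Finset.range (m + 1), ((k : ℂ) + j - s) ≠ 0 :=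
    Finset.prod_ne_zero_iff.2 fun j _ => h j
  have h3 := h (m + 1)
  have h0 := h 0
  push_cast at h3
  simp only [Nat.cast_zero, add_zero] at h0
  have e : ∏ j ∈ Finset.range (m + 1), (((k + 1 : ℕ) : ℂ) + j - s)
      = (∏ j ∈ Finset.range (m + 1), ((k : ℂ) + j - s)) * ((k : ℂ) + (m + 1) - s) / (k - s) := by
    rw [eq_div_iff h0]
    have a := Finset.prod_range_succ (fun j : ℕ => (k : ℂ) + j - s) (m + 1)
    have b := Finset.prod_range_succ' (fun j : ℕ => (k : ℂ) + j - s) (m + 1)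
    push_cast at a b ⊢
    rw [← a, b]
    simp only [add_zero]
    congr 1
    exact Finset.prod_congr rfl fun j _ => by ring
  unfold D
  rw [e, Finset.prod_range_succ _ (m + 1), Nat.factorial_succ]
  push_cast
  field_simp
  ring

theorem D_ne {s : ℂ} (hs : ∀ n : ℕ, (n : ℂ) - s ≠ 0) (k m : ℕ) : D s k m ≠ 0 := by
  have h : ∀ j : ℕ, (k : ℂ) + j - s ≠ 0 := fun j => by simpa using hs (k + j)
  exact div_ne_zero (by exact_mod_cast m.factorial_ne_zero)
    (Finset.prod_ne_zero_iff.2 fun j _ => h j)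

theorem growth (q C : ℝ) (hq : q ^ 2 = 74) (w : ℕ → ℂ) (hw : ∀ m, w m ≠ 0)
    (hrec : ∀ m : ℕ, w (m + 1) * ((m : ℂ) - 1 - q * Complex.I) = (m + 1) * w m)
    (hC : ∀ m, 1 ≤ m → |(w m).re| ≤ C) : False := by
  have hre : ∀ m : ℕ, (w (m + 1)).re * (m - 1) + q * (w (m + 1)).im = (m + 1) * (w m).re := by
    intro m
    have := congrArg Complex.re (hrec m)
    simp at this
    linarith
  have hn : ∀ m : ℕ, Complex.normSq (w (m + 1)) * ((m - 1) ^ 2 + 74)
      = (m + 1) ^ 2 * Complex.normSq (w m) := by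
    intro m
    have := congrArg Complex.normSq (hrec m)
    rw [map_mul, map_mul] at this
    have e1 : Complex.normSq ((m : ℂ) - 1 - q * Complex.I) = (m - 1) ^ 2 + 74 := by
      rw [Complex.normSq_apply]; simp; nlinarith
    have e2 : Complex.normSq ((m : ℂ) + 1) = (m + 1) ^ 2 := by
      rw [Complex.normSq_apply]; simp; ring
    rwa [e1, e2] at this
  have hC0 : 0 ≤ C := (abs_nonneg _).trans (hC 1 le_rfl)
  have up : ∀ m : ℕ, 1 ≤ m → Complex.normSq (w (m + 1)) ≤ 2 * C ^ 2 * (m + 1) ^ 2 := by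
    intro m hm
    have a := abs_le.1 (hC m hm)
    have b := abs_le.1 (hC (m + 1) (by omega))
    have hm' : (1 : ℝ) ≤ m := by exact_mod_cast hm
    have c : |q * (w (m + 1)).im| ≤ 2 * (m + 1) * C := by
      rw [abs_le]; have := hre m
      constructor <;> nlinarith
    have c2 : (q * (w (m + 1)).im) ^ 2 ≤ (2 * (m + 1) * C) ^ 2 := by
      rw [← sq_abs]; exact pow_le_pow_left₀ (abs_nonneg _) c 2
    rw [mul_pow, hq] at c2
    have c3 : (w (m + 1)).re ^ 2 ≤ C ^ 2 := by nlinarith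
    rw [Complex.normSq_apply]
    have : C ^ 2 ≤ C ^ 2 * (m + 1) ^ 2 := by
      have : (1 : ℝ) ≤ (m + 1) ^ 2 := by nlinarith
      nlinarith [sq_nonneg C]
    nlinarith [sq_nonneg C, sq_nonneg (C * (m + 1))]
  set c : ℝ := Complex.normSq (w 75) / 75 ^ 3 with hc
  have hcpos : 0 < c := div_pos (Complex.normSq_pos.2 (hw 75)) (by norm_num)
  have low : ∀ m : ℕ, 75 ≤ m → c * (m : ℝ) ^ 3 ≤ Complex.normSq (w m) := by
    intro m hm
    induction m, hm using Nat.le_induction with
    | base => rw [hc]; push_cast; field_simp; rfl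
    | succ m hm ih =>
      have hm' : (75 : ℝ) ≤ m := by exact_mod_cast hm
      have hp : (0 : ℝ) < (m - 1) ^ 2 + 74 := by positivity
      refine le_of_mul_le_mul_right ?_ hp
      rw [hn m]
      push_cast
      have k1 : ((m : ℝ) + 1) * ((m - 1) ^ 2 + 74) ≤ m ^ 3 := by nlinarith
      calc c * ((m : ℝ) + 1) ^ 3 * ((m - 1) ^ 2 + 74)
          = (m + 1) ^ 2 * (c * (((m : ℝ) + 1) * ((m - 1) ^ 2 + 74))) := by ring
        _ ≤ (m + 1) ^ 2 * (c * m ^ 3) := by gcongr
        _ ≤ _ := by gcongr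
  obtain ⟨M, hM⟩ := exists_nat_gt (2 * C ^ 2 / c)
  have a := low (M + 75 + 1) (by omega)
  have b := up (M + 75) (by omega)
  rw [div_lt_iff₀ hcpos] at hM
  push_cast at a b
  have hp : (0 : ℝ) < ((M : ℝ) + 75 + 1) ^ 2 := by positivity
  have : c * ((M : ℝ) + 75 + 1) ≤ 2 * C ^ 2 := by
    refine le_of_mul_le_mul_right ?_ hp
    nlinarith
  nlinarith

noncomputable def W (e x : ℝ) : ℝ := e + (1 - e) * (1 - x) ^ 3

theorem W_mem {e : ℝ} (h0 : 0 < e) (h1 : e < 1) : InOmega (W e) := by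
  have hc : Continuous (W e) := by unfold W; fun_prop
  refine ⟨hc.continuousOn, fun x hx => ?_, by simp [W], hc.continuousOn.integrableOn_Icc, ?_⟩
  · have : 0 ≤ (1 - e) * (1 - x) ^ 3 := mul_nonneg (by linarith) (pow_nonneg (by linarith [hx.2]) _)
    unfold W; linarith
  · rw [integrableOn_Icc_iff_integrableOn_Ioc]
    have hg : Continuous fun x : ℝ => |(1 - e) * (3 - 3 * x + x ^ 2)| := by fun_prop
    refine (hg.continuousOn.integrableOn_Icc.mono_set Ioc_subset_Icc_self).congr_fun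
      (fun x hx => ?_) measurableSet_Ioc
    have : 1 - W e x = (1 - e) * (3 - 3 * x + x ^ 2) * x := by unfold W; ring
    simp only [this, abs_mul _ x, abs_of_pos hx.1]
    field_simp [hx.1.ne']

theorem cube_anti : AntitoneOn (fun x : ℝ => (1 - x) ^ 3) (Icc 0 1) := fun x _ y hy hxy =>
  pow_le_pow_left₀ (by linarith [hy.2]) (by linarith) 3

theorem W_anti {e : ℝ} (h1 : e < 1) : AntitoneOn (W e) (Icc 0 1) := fun x hx y hy hxy => by
  have := cube_anti hx hy hxy
  unfold W
  nlinarith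

theorem W_int (e : ℝ) (k : ℕ) : ∫ x in (0 : ℝ)..1, W e x * x ^ k
    = 1 / (k + 1) - (1 - e) * (3 / (k + 2) - 3 / (k + 3) + 1 / (k + 4)) := by
  have : ∀ x : ℝ, W e x * x ^ k
      = x ^ k - (1 - e) * (3 * x ^ (k + 1) - 3 * x ^ (k + 2) + x ^ (k + 3)) := by
    intro x; unfold W; ring
  simp only [this]
  rw [intervalIntegral.integral_sub (by simp) (Continuous.intervalIntegrable (by fun_prop) _ _),
    intervalIntegral.integral_const_mul,
    intervalIntegral.integral_add (Continuous.intervalIntegrable (by fun_prop) _ _) (by simp),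
    intervalIntegral.integral_sub (Continuous.intervalIntegrable (by fun_prop) _ _)
      (Continuous.intervalIntegrable (by fun_prop) _ _),
    intervalIntegral.integral_const_mul, intervalIntegral.integral_const_mul]
  simp only [integral_pow]
  push_cast
  simp
  left
  ring

theorem lam_eq (k : ℕ) : lam (W (1 / 332)) (W (1 / 166)) (k + 1)
    = 1 / 2 + 498 / ((k + 13) * ((k - 2) ^ 2 + 74)) := by
  simp only [lam, Nat.succ_ne_zero, if_false, Nat.add_sub_cancel, W_int]
  have e : (1 : ℝ) / (k + 1) - (1 - 1 / 166) * (3 / (k + 2) - 3 / (k + 3) + 1 / (k + 4))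
      = (k + 13) * ((k - 2) ^ 2 + 74) / (166 * (k + 1) * (k + 2) * (k + 3) * (k + 4)) := by
    field_simp; ring
  rw [e]
  field_simp
  ring

theorem noBV : ¬ ∃ b : ℝ → ℝ, BoundedVariationOn b (Icc 0 1) ∧
    ∀ n, IsRS (fun x => x ^ n) b (lam (W (1 / 332)) (W (1 / 166)) n) := by
  rintro ⟨b, hb, H⟩
  set q : ℝ := Real.sqrt 74 with hqdef
  have hq : q ^ 2 = 74 := Real.sq_sqrt (by norm_num)
  have hq0 : q ≠ 0 := by intro h; rw [h] at hq; norm_num at hq
  set s : ℂ := 3 + q * Complex.I with hsdef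
  have hs : ∀ n : ℕ, (n : ℂ) - s ≠ 0 := by
    intro n h
    have := congrArg Complex.im h
    simp [hsdef] at this
    exact hq0 this
  have hs' : ∀ n : ℕ, (n : ℂ) - (-12) ≠ 0 := by
    intro n h
    have := congrArg Complex.re h
    simp at this
    have : (0 : ℝ) ≤ n := n.cast_nonneg
    linarith
  set A : ℂ := (-(498 / 299) : ℝ) + ((-(498 * 15 / 299) / q : ℝ) : ℂ) * Complex.I with hA
  have hA0 : A ≠ 0 := by
    intro h
    have := congrArg Complex.re h
    simp [hA] at this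
  set F : ℕ → ℕ → ℝ := fun k m => (if m = 0 then 1 / 2 else 0)
    + 498 / 299 * (D (-12) k m).re + (A * D s k m).re with hF
  have key : ∀ m k, IsRS (fun x => x ^ (k + 1) * (1 - x) ^ m) b (F (k + 1) m) := by
    intro m
    induction m with
    | zero =>
      intro k
      have := H (k + 1)
      rw [lam_eq] at this
      simp only [pow_zero, mul_one]
      convert this using 1
      have hk : (0 : ℝ) ≤ k := k.cast_nonneg
      have d1 : (D (-12) (k + 1) 0).re = 1 / (k + 13) := by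
        have : D (-12) (k + 1) 0 = ((1 / (k + 13) : ℝ) : ℂ) := by
          simp [D]; ring
        rw [this, Complex.ofReal_re]
      have d2 : D s (k + 1) 0 = ((((k - 2) / ((k - 2) ^ 2 + 74) : ℝ)) : ℂ)
          + ((q / ((k - 2) ^ 2 + 74) : ℝ) : ℂ) * Complex.I := by
        have h1 := hs (k + 1)
        have hp : (0 : ℝ) < (k - 2) ^ 2 + 74 := by positivity
        simp only [D, Nat.factorial_zero, Nat.cast_one, zero_add, Finset.prod_range_one,
          Nat.cast_zero, add_zero]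
        rw [div_eq_iff h1]
        apply Complex.ext
        · simp only [hsdef]
          simp only [Complex.mul_re, Complex.add_re, Complex.sub_re, Complex.ofReal_re,
            Complex.ofReal_im, Complex.I_re, Complex.I_im, Complex.mul_im, Complex.add_im,
            Complex.sub_im, Complex.natCast_re, Complex.natCast_im, Complex.one_re,
            Complex.re_ofNat, Complex.im_ofNat]
          push_cast
          field_simp
          nlinarith
        · simp only [hsdef]
          simp only [Complex.mul_re, Complex.add_re, Complex.sub_re, Complex.ofReal_re,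
            Complex.ofReal_im, Complex.I_re, Complex.I_im, Complex.mul_im, Complex.add_im,
            Complex.sub_im, Complex.natCast_re, Complex.natCast_im, Complex.one_im,
            Complex.re_ofNat, Complex.im_ofNat]
          push_cast
          field_simp
          ring
      simp only [hF, if_true]
      rw [d1, d2, hA]
      simp only [Complex.mul_re, Complex.add_re, Complex.ofReal_re,
        Complex.ofReal_im, Complex.I_re, Complex.I_im, Complex.mul_im, Complex.add_im]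
      have hp : (0 : ℝ) < (k - 2) ^ 2 + 74 := by positivity
      field_simp
      ring
    | succ m ih =>
      intro k
      have := (ih k).sub (ih (k + 1))
      convert this using 1
      · ext x; ring
      · simp only [hF]
        rw [D_diff hs, D_diff hs', mul_sub, Complex.sub_re, Complex.sub_re]
        simp only [Nat.succ_ne_zero, if_false]
        ring
  have hD : ∀ m, ‖D (-12) 1 m‖ ≤ 1 := by
    intro m
    induction m with
    | zero => simp [D]; norm_num
    | succ m ih =>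
      have := congrArg norm (D_step hs' 1 m)
      rw [norm_mul, norm_mul] at this
      have e1 : ‖((1 : ℕ) : ℂ) + (m + 1) - (-12)‖ = m + 14 := by
        have : ((1 : ℕ) : ℂ) + (m + 1) - (-12) = ((m + 14 : ℕ) : ℂ) := by push_cast; ring
        rw [this, Complex.norm_natCast]; push_cast; ring
      have e2 : ‖(m : ℂ) + 1‖ = m + 1 := by
        have : (m : ℂ) + 1 = ((m + 1 : ℕ) : ℂ) := by push_cast; ring
        rw [this, Complex.norm_natCast]; push_cast; ring
      rw [e1, e2] at this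
      have hm : (0 : ℝ) ≤ m := m.cast_nonneg
      nlinarith [norm_nonneg (D (-12) 1 (m + 1))]
  refine growth q ((eVariationOn b (Icc 0 1)).toReal + 1 + 2) hq (fun m => A * D s 1 m)
    (fun m => mul_ne_zero hA0 (D_ne hs 1 m)) (fun m => ?_) (fun m hm => ?_)
  · have := D_step hs 1 m
    have e : ((1 : ℕ) : ℂ) + (m + 1) - s = m - 1 - q * Complex.I := by
      rw [hsdef]; push_cast; ring
    rw [e] at this
    rw [mul_assoc, this]; ring
  · have h1 := (key m 0).bound hb (fun x hx => by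
      rw [abs_mul, abs_pow, abs_pow, abs_of_nonneg hx.1, abs_of_nonneg (by linarith [hx.2])]
      exact mul_le_one₀ (pow_le_one₀ hx.1 hx.2) (pow_nonneg (by linarith [hx.2]) _)
        (pow_le_one₀ (by linarith [hx.2]) (by linarith [hx.1])))
    have hm0 : m ≠ 0 := by omega
    simp only [hF, hm0, if_false, zero_add] at h1
    have h2 := abs_le.1 ((Complex.abs_re_le_norm _).trans (hD m))
    have h3 := abs_le.1 h1
    rw [abs_le]
    constructor <;> nlinarith

theorem result : ∃ w₁ w₂ : ℝ → ℝ, InOmega w₁ ∧ InOmega w₂ ∧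
    AntitoneOn w₁ (Icc 0 1) ∧ AntitoneOn w₂ (Icc 0 1) ∧
    AntitoneOn (fun x => w₁ x / w₂ x) (Icc 0 1) ∧
    (¬ ∃ b : ℝ → ℝ, MonotoneOn b (Icc 0 1) ∧ ∀ n, IsRS (fun x => x ^ n) b (lam w₁ w₂ n)) ∧
    (¬ ∃ b : ℝ → ℝ, BoundedVariationOn b (Icc 0 1) ∧
      ∀ n, IsRS (fun x => x ^ n) b (lam w₁ w₂ n)) := by
  have m2 := W_mem (e := 1 / 166) (by norm_num) (by norm_num)
  refine ⟨W (1 / 332), W (1 / 166), W_mem (by norm_num) (by norm_num), m2,
    W_anti (by norm_num), W_anti (by norm_num), fun x hx y hy hxy => ?_, ?_, noBV⟩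
  · have := cube_anti hx hy hxy
    beta_reduce at this ⊢
    rw [div_le_div_iff₀ (m2.2.1 y hy) (m2.2.1 x hx)]
    unfold W
    nlinarith
  · rintro ⟨b, hb, H⟩
    refine noBV ⟨b, ?_, H⟩
    have := hb.locallyBoundedVariationOn 0 1 (by simp) (by simp)
    simpa using this

end Pool.Agent.Results.MP_d888c7_an.NoMoment
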